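import Mathlib

set_option autoImplicit false

namespace Pool.Agent.Htpy

open Set Complex

/-- uniqueness of logarithms -/
lemma exp_const {A : Type*} [TopologicalSpace A] [SimplyConnectedSpace A]
    [LocallyPathConnectedSpace A] (u : A → ℂ) (hu : Continuous u)
    (h : ∀ a, exp (u a) = 1) (a b : A) : u a = u b := by
  have key := Complex.isCoveringMapOn_exp.existsUnique_continuousMap_lifts
    (A := A) (f := ContinuousMap.const A (1:ℂ)) (a₀ := b) (e₀ := u b) (by simpa using h b)
    (by intro a; simp)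
  have h1 := key.unique (y₁ := ⟨u, hu⟩) (y₂ := ContinuousMap.const A (u b))
    ⟨rfl, by ext x; simpa using h x⟩ ⟨rfl, by ext x; simpa using h b⟩
  have := congrArg (fun (F : C(A, ℂ)) => F a) h1
  simpa using this

lemma exists_log {A : Type*} [TopologicalSpace A] [SimplyConnectedSpace A]
    [LocallyPathConnectedSpace A] (F : A → ℂ) (hF : Continuous F)
    (h : ∀ a, F a ≠ 0) (a0 : A) : ∃ f : A → ℂ, Continuous f ∧ ∀ a, exp (f a) = F a := by
  obtain ⟨f, ⟨-, hf⟩, -⟩ := Complex.isCoveringMapOn_exp.existsUnique_continuousMap_lifts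
    (A := A) (f := ⟨F, hF⟩) (a₀ := a0) (e₀ := Complex.log (F a0))
    (by simpa using Complex.exp_log (h a0))
    (by intro a; simpa using h a)
  refine ⟨f, f.continuous, fun a => ?_⟩
  have := congrFun hf a
  simpa using this

/-- no homotopy can move a circle around the origin, avoiding the origin, into a half plane -/
lemma no_unwind (F : ℝ × ℝ → ℂ) (hF : Continuous F) (h0 : ∀ p, F p ≠ 0)
    (hper : ∀ s t, F (s + 2 * Real.pi, t) = F (s, t))
    (r : ℝ) (hr : 0 < r) (hs : ∀ s : ℝ, F (s, 0) = r * exp (s * I))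
    (t1 : ℝ) (q : ℂ) (hq : ∀ s : ℝ, 0 < (F (s, t1) * q).re) : False := by
  obtain ⟨f, hf, hfe⟩ := exists_log F hF h0 (0, 0)
  -- difference over a period is constant
  have h1 : ∀ a b : ℝ × ℝ, f (a.1 + 2 * Real.pi, a.2) - f a = f (b.1 + 2 * Real.pi, b.2) - f b := by
    intro a b
    refine exp_const (A := ℝ × ℝ) (fun p => f (p.1 + 2 * Real.pi, p.2) - f p)
      (by fun_prop) ?_ a b
    intro p
    rw [exp_sub, hfe, hfe, hper, div_self (h0 _)]
  -- at time 0
  have h2 : ∀ s s' : ℝ, f (s, 0) - s * I - Real.log r = f (s', 0) - s' * I - Real.log r := by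
    intro s s'
    refine exp_const (A := ℝ) (fun s => f (s, 0) - s * I - Real.log r) (by fun_prop) ?_ s s'
    intro s
    rw [exp_sub, exp_sub, hfe, hs, ← Complex.ofReal_exp, Real.exp_log hr]
    have : (r : ℂ) ≠ 0 := by exact_mod_cast hr.ne'
    field_simp [exp_ne_zero]
  have h3 : f (2 * Real.pi, 0) - f (0, 0) = 2 * Real.pi * I := by
    have := h2 (2 * Real.pi) 0
    push_cast at this
    linear_combination this
  -- at time t1
  have hq0 : q ≠ 0 := by
    rintro rfl
    have := hq 0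
    simp at this
  have h4 : ∀ s s' : ℝ, f (s, t1) + Complex.log q - Complex.log (F (s, t1) * q) =
      f (s', t1) + Complex.log q - Complex.log (F (s', t1) * q) := by
    intro s s'
    refine exp_const (A := ℝ) (fun s => f (s, t1) + Complex.log q - Complex.log (F (s, t1) * q))
      ?_ ?_ s s'
    · refine Continuous.sub (by fun_prop) ?_
      refine Continuous.clog (by fun_prop) ?_
      intro x
      exact Or.inl (hq x)
    · intro s
      rw [exp_sub, exp_add, hfe, Complex.exp_log hq0, Complex.exp_log (mul_ne_zero (h0 _) hq0)]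
      exact div_self (mul_ne_zero (h0 _) hq0)
  have h5 : f (2 * Real.pi, t1) - f (0, t1) = 0 := by
    have h6 := h4 (0 + 2 * Real.pi) 0
    rw [hper 0 t1] at h6
    simp only [zero_add] at h6
    linear_combination h6
  have h7 := h1 (0, 0) (0, t1)
  simp only [zero_add] at h7
  rw [h3, h5] at h7
  have : (2 * (Real.pi : ℂ) * I) ≠ 0 := Complex.two_pi_I_ne_zero
  exact this h7

/-- part (i) -/
lemma id_stable (D : Set ℂ) (hc : D.Countable) (hd : Dense D)
    (h : {z : ℂ // z ∉ D} × unitInterval → {z : ℂ // z ∉ D}) (hh : Continuous h)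
    (h0 : ∀ x, h (x, 0) = x) (a : {z : ℂ // z ∉ D}) (t1 : unitInterval) : h (a, t1) = a := by
  by_contra hne
  set p : ℂ := (h (a, t1) : ℂ) with hp
  have hpa : p ≠ a := fun e => hne (Subtype.ext e)
  have hε : 0 < ‖p - a‖ / 2 := by
    have : 0 < ‖p - a‖ := norm_pos_iff.mpr (sub_ne_zero.mpr hpa)
    linarith
  set ε := ‖p - (a:ℂ)‖ / 2 with hεd
  -- continuity at a
  have hcont : Continuous fun x : {z : ℂ // z ∉ D} => (h (x, t1) : ℂ) := by fun_prop
  obtain ⟨δ, hδ, hδ'⟩ := Metric.continuous_iff.mp hcont a ε hε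
  set η := min δ ε with hη
  have hη0 : 0 < η := lt_min hδ hε
  obtain ⟨d, hdD, hda⟩ := hd.exists_dist_lt (a : ℂ) (show 0 < η / 3 by linarith)
  -- radius
  have hcr : ((fun d' : ℂ => ‖d' - d‖) '' D).Countable := hc.image _
  obtain ⟨r, hr, hrD⟩ : ∃ r ∈ Ioo (0:ℝ) (η / 3), r ∉ ((fun d' : ℂ => ‖d' - d‖) '' D) := by
    obtain ⟨r, hr1, hr2⟩ := (hcr.dense_compl ℝ).exists_between (show (0:ℝ) < η / 3 by linarith)
    exact ⟨r, hr2, hr1⟩
  have hcD : ∀ s : ℝ, d + r * exp (s * I) ∉ D := by
    intro s hs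
    apply hrD
    refine ⟨_, hs, ?_⟩
    simp [Complex.norm_exp_ofReal_mul_I, abs_of_pos hr.1]
  let c : ℝ → {z : ℂ // z ∉ D} := fun s => ⟨d + r * exp (s * I), hcD s⟩
  have hcc : Continuous c := by
    apply Continuous.subtype_mk
    fun_prop
  have hcdist : ∀ s, dist (c s) a < η := by
    intro s
    rw [Subtype.dist_eq, dist_eq_norm]
    have : (c s : ℂ) - a = (d - a) + r * exp (s * I) := by simp only [c]; ring
    rw [this]
    have h1 : ‖(r : ℂ) * exp (s * I)‖ = r := by
      simp [Complex.norm_exp_ofReal_mul_I, abs_of_pos hr.1]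
    have h2 : ‖d - (a:ℂ)‖ < η / 3 := by
      rw [← dist_eq_norm, dist_comm]; exact hda
    have h3 := norm_add_le (d - (a:ℂ)) (r * exp (s * I))
    have := hr.2
    linarith
  let F : ℝ × ℝ → ℂ := fun q => (h (c q.1, Set.projIcc 0 1 zero_le_one q.2) : ℂ) - d
  have hFc : Continuous F := by
    simp only [F]
    have : Continuous fun q : ℝ × ℝ => (h (c q.1, Set.projIcc (0:ℝ) 1 zero_le_one q.2)) := by
      apply hh.comp
      refine (hcc.comp continuous_fst).prodMk ?_
      exact continuous_projIcc.comp continuous_snd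
    fun_prop
  refine no_unwind F hFc ?_ ?_ r hr.1 ?_ (t1 : ℝ) (starRingEnd ℂ (p - d)) ?_
  · intro q hq
    simp only [F] at hq
    have := (h (c q.1, Set.projIcc 0 1 zero_le_one q.2)).2
    rw [sub_eq_zero.mp hq] at this
    exact this hdD
  · intro s t
    have : c (s + 2 * Real.pi) = c s := by
      apply Subtype.ext
      simp only [c]
      congr 2
      rw [ofReal_add, add_mul, exp_add]
      push_cast
      rw [exp_two_pi_mul_I, mul_one]
    simp only [F, this]
  · intro s
    have hz : Set.projIcc (0:ℝ) 1 zero_le_one 0 = (0 : unitInterval) := by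
      simp
    simp only [F, hz, h0, c]
    ring
  · intro s
    have hz : Set.projIcc (0:ℝ) 1 zero_le_one (t1:ℝ) = t1 := by
      simp
    simp only [F, hz]
    have h1 : ‖(h (c s, t1) : ℂ) - p‖ < ε := by
      have := hδ' (c s) (lt_of_lt_of_le (hcdist s) (min_le_left _ _))
      rwa [dist_eq_norm] at this
    have h2 : 2 * ε - η / 3 < ‖p - d‖ := by
      have e1 : ‖p - (a:ℂ)‖ ≤ ‖p - d‖ + ‖d - (a:ℂ)‖ := by
        have := norm_add_le (p - d) (d - (a:ℂ))
        simpa using this
      have e2 : ‖d - (a:ℂ)‖ < η / 3 := by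
        rw [← dist_eq_norm, dist_comm]; exact hda
      have e3 : ‖p - (a:ℂ)‖ = 2 * ε := by rw [hεd]; ring
      linarith
    have h3 : η ≤ ε := min_le_right _ _
    have h4 : ε < ‖p - d‖ := by linarith
    -- re ((v + w) * conj w) >= |w|^2 - |v||w|
    have e : (h (c s, t1) : ℂ) - d = ((h (c s, t1) : ℂ) - p) + (p - d) := by ring
    rw [e, add_mul, add_re, Complex.mul_conj, ofReal_re]
    have e4 : |((((h (c s, t1) : ℂ) - p)) * (starRingEnd ℂ) (p - d)).re| ≤
        ‖(h (c s, t1) : ℂ) - p‖ * ‖p - d‖ := by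
      refine (Complex.abs_re_le_norm _).trans ?_
      rw [norm_mul, Complex.norm_conj]
    have e5 : normSq (p - d) = ‖p - d‖ * ‖p - d‖ := by
      rw [Complex.normSq_eq_norm_sq]; ring
    rw [e5]
    have e6 := neg_le_of_abs_le e4
    have e7 : ‖(h (c s, t1) : ℂ) - p‖ * ‖p - d‖ < ‖p - d‖ * ‖p - d‖ := by
      apply mul_lt_mul_of_pos_right (by linarith)
      linarith
    linarith

/-- many visible points -/
lemma visible (D : Set ℂ) (hc : D.Countable) (x : ℂ) (hx : x ∉ D) (w : ℂ) (ε : ℝ) (hε : 0 < ε) :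
    ∃ w' : ℂ, ‖w' - w‖ < ε ∧ (∀ t : unitInterval, x + ((t : ℝ) : ℂ) * (w' - x) ∉ D) ∧
      (x ≠ w → w' ≠ x) := by
  rcases eq_or_ne x w with rfl | hxw
  · exact ⟨x, by simpa using hε, by intro t; simpa using hx, by simp⟩
  · have hxw' : x - w ≠ 0 := sub_ne_zero.mpr hxw
    have hpos : 0 < ‖x - w‖ := norm_pos_iff.mpr hxw'
    have hcr : ((fun d : ℂ => - ((d - x) / (x - w)).im / ((d - x) / (x - w)).re) '' D).Countable :=
      hc.image _
    obtain ⟨θ, hθ1, hθ⟩ := (hcr.dense_compl ℝ).exists_between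
      (show (0:ℝ) < ε / ‖x - w‖ by positivity)
    refine ⟨w + θ * I * (x - w), ?_, ?_, ?_⟩
    · have : w + θ * I * (x - w) - w = θ * I * (x - w) := by ring
      rw [this, norm_mul, norm_mul, Complex.norm_I, Complex.norm_real, Real.norm_eq_abs,
        abs_of_pos hθ.1, mul_one]
      exact (lt_div_iff₀ hpos).mp hθ.2
    · intro t ht
      have e : x + ((t : ℝ) : ℂ) * (w + θ * I * (x - w) - x) =
        x + (x - w) * ((t : ℝ) * (-1 + θ * I)) := by ring
      rw [e] at ht
      rcases eq_or_ne (t : ℝ) 0 with h0 | h0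
      · rw [h0] at ht
        simp at ht
        exact hx ht
      · apply hθ1
        refine ⟨_, ht, ?_⟩
        have e2 : (x + (x - w) * ((t : ℝ) * (-1 + θ * I)) - x) / (x - w) =
            (t : ℝ) * (-1 + θ * I) := by
          field_simp
          ring
        simp only [e2]
        simp
        field_simp
    · intro _ h
      have e : (x - w) * (-1 + θ * I) = 0 := by linear_combination h
      rcases mul_eq_zero.mp e with h1 | h1
      · exact hxw' h1
      · have := congrArg Complex.re h1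
        simp at this

theorem main :
    ∃ (X : Type) (_ : MetricSpace X),
      (∀ h : X × unitInterval → X, Continuous h →
          (∀ x : X, h (x, (0 : unitInterval)) = x) →
          ∀ (a : X) (t : unitInterval), h (a, t) = a) ∧
      ∃ (Z : Type) (_ : MetricSpace Z) (g : Z → X),
        Continuous g ∧ IsOpenMap g ∧ Function.Surjective g ∧
        ∃ (a : Z) (h : Z × unitInterval → X), Continuous h ∧
          (∀ z : Z, h (z, (0 : unitInterval)) = g z) ∧
          ∃ t : unitInterval, h (a, t) ≠ g a := by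
  obtain ⟨D, hc, hd⟩ := TopologicalSpace.exists_countable_dense ℂ
  refine ⟨{z : ℂ // z ∉ D}, inferInstance, fun h hh h0 a t => id_stable D hc hd h hh h0 a t, ?_⟩
  let P : ℂ × ℂ → Prop := fun p => ∀ t : unitInterval, p.1 + ((t : ℝ) : ℂ) * (p.2 - p.1) ∉ D
  have hP : ∀ p, P p → p.1 ∉ D := by
    intro p hp
    have := hp 0
    simpa using this
  let g : {p : ℂ × ℂ // P p} → {z : ℂ // z ∉ D} := fun p => ⟨p.1.1, hP p.1 p.2⟩
  refine ⟨{p : ℂ × ℂ // P p}, inferInstance, g, ?_, ?_, ?_, ?_⟩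
  · apply Continuous.subtype_mk
    fun_prop
  · intro U hU
    rw [Metric.isOpen_iff] at hU ⊢
    rintro _ ⟨z, hz, rfl⟩
    obtain ⟨ε, hε, hU'⟩ := hU z hz
    refine ⟨ε, hε, ?_⟩
    intro x hx
    obtain ⟨w', hw', hw2, -⟩ := visible D hc x.1 x.2 z.1.2 ε hε
    refine ⟨⟨(x.1, w'), hw2⟩, hU' ?_, rfl⟩
    rw [Metric.mem_ball] at hx ⊢
    rw [Subtype.dist_eq, Prod.dist_eq]
    refine max_lt ?_ ?_
    · exact hx
    · rw [dist_eq_norm]
      exact hw'
  · intro x
    refine ⟨⟨(x.1, x.1), ?_⟩, rfl⟩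
    intro t
    simpa using x.2
  · have hne : ∃ x : ℂ, x ∉ D := by
      obtain ⟨x, hx⟩ := (hc.dense_compl ℝ).nonempty
      exact ⟨x, hx⟩
    obtain ⟨x, hx⟩ := hne
    obtain ⟨w, -, hw2, hw3⟩ := visible D hc x hx (x + 1) 1 one_pos
    have hwx : w ≠ x := hw3 (by simp)
    refine ⟨⟨(x, w), hw2⟩, fun q => ⟨q.1.1.1 + ((q.2 : ℝ) : ℂ) * (q.1.1.2 - q.1.1.1),
      q.1.2 q.2⟩, ?_, ?_, 1, ?_⟩
    · apply Continuous.subtype_mk
      fun_prop
    · intro z
      apply Subtype.ext
      simp [g]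
    · intro h
      have := congrArg Subtype.val h
      simp [g] at this
      exact hwx this

end Pool.Agent.Htpy
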